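import Pool.Agent.H79.TD.Stm3

/-!
# Modules GOD and SCI
-/

set_option autoImplicit false

open MvPolynomial Module Pool.Agent.H77.TF Pool.Agent.H77.GR Pool.Agent.H79.TD

namespace Pool.Agent.H69.TD

/-- the product of the nonzero numbers of a finite family -/
def prd {ι : Type} [Fintype ι] (f : ι → ℤ) : ℕ := ∏ i, if f i = 0 then 1 else (f i).natAbs

lemma prd_ne {ι : Type} [Fintype ι] (f : ι → ℤ) : prd f ≠ 0 := by
  refine Finset.prod_ne_zero_iff.2 fun i _ => ?_
  split_ifs with h
  · exact one_ne_zero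
  · exact Int.natAbs_ne_zero.2 h

lemma prd_cast {ι : Type} [Fintype ι] (f : ι → ℤ) {k : Type} [Field k] {p : ℕ} [CharP k p]
    (h : ¬ p ∣ prd f) {i : ι} (hi : f i ≠ 0) : ((f i : ℤ) : k) ≠ 0 := by
  intro h0
  rw [CharP.intCast_eq_zero_iff k p] at h0
  refine h ((Int.natCast_dvd.1 h0).trans ?_)
  have h1 := Finset.dvd_prod_of_mem (fun i => if f i = 0 then 1 else (f i).natAbs)
    (Finset.mem_univ i)
  simp only [hi, if_false] at h1
  exact h1

lemma det_cast {R : Type} [CommRing R] {n : ℕ} (A : Fin n → Fin 3 → ℤ) (i j l : Fin n) :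
    (Matrix.of ![mapA (Int.castRingHom R) A i, mapA (Int.castRingHom R) A j,
      mapA (Int.castRingHom R) A l]).det = (((Matrix.of ![A i, A j, A l]).det : ℤ) : R) := by
  rw [Matrix.det_fin_three, Matrix.det_fin_three]
  simp [mapA]

lemma minor_ne {n : ℕ} {A : Fin n → Fin 3 → ℤ} (h : Simple (mapA (Int.castRingHom ℚ) A))
    {i j : Fin n} (hij : i ≠ j) : ∃ s t : Fin 3, A i s * A j t - A i t * A j s ≠ 0 := by
  by_contra hc
  push Not at hc
  obtain ⟨t, ht⟩ := Function.ne_iff.1 (h.1 j)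
  have ht' : (A j t : ℚ) ≠ 0 := by simpa [mapA] using ht
  refine h.2 i j hij ((A i t : ℚ) / (A j t : ℚ)) (funext fun s => ?_)
  have h1 : ((A i s * A j t - A i t * A j s : ℤ) : ℚ) = 0 := by rw [hc s t]; simp
  push_cast at h1
  show (A i s : ℚ) = (A i t : ℚ) / (A j t : ℚ) * (A j s : ℚ)
  field_simp
  linarith

theorem t_GOD : S_GOD := by
  intro n A hA
  let f : (Fin n × Fin 3) ⊕ (((Fin n × Fin n) × (Fin 3 × Fin 3)) ⊕ (Fin n × Fin n × Fin n)) → ℤ :=
    Sum.elim (fun x => A x.1 x.2) (Sum.elim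
      (fun x => A x.1.1 x.2.1 * A x.1.2 x.2.2 - A x.1.1 x.2.2 * A x.1.2 x.2.1)
      (fun x => (Matrix.of ![A x.1, A x.2.1, A x.2.2]).det))
  refine ⟨prd f, prd_ne f, ?_⟩
  intro R _ _ _ p _ _ hp
  have hcast : ∀ a : ℤ, IsLocalRing.residue R (a : R) = (a : IsLocalRing.ResidueField R) :=
    fun a => map_intCast _ a
  refine ⟨⟨fun i => ?_, fun i j hij c hc => ?_⟩, fun i j l hd => ?_⟩
  · obtain ⟨s, hs⟩ := Function.ne_iff.1 (hA.1 i)
    have hs' : A i s ≠ 0 := by
      intro h0
      apply hs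
      simp [mapA, h0]
    have h1 := prd_cast (k := IsLocalRing.ResidueField R) f hp (i := Sum.inl (i, s)) hs'
    intro h0
    apply h1
    have h2 := congrFun h0 s
    simp only [mapA, eq_intCast, Pi.zero_apply] at h2
    rw [hcast] at h2
    exact h2
  · obtain ⟨s, t, hst⟩ := minor_ne hA hij
    have h1 := prd_cast (k := IsLocalRing.ResidueField R) f hp
      (i := Sum.inr (Sum.inl ((i, j), (s, t)))) hst
    apply h1
    have h2 := congrFun hc s
    have h3 := congrFun hc t
    simp only [mapA, eq_intCast, Pi.smul_apply, smul_eq_mul] at h2 h3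
    rw [hcast, hcast] at h2 h3
    show ((A i s * A j t - A i t * A j s : ℤ) : IsLocalRing.ResidueField R) = 0
    push_cast
    rw [h2, h3]
    ring
  · rw [det_cast] at hd ⊢
    have h1 := (IsLocalRing.residue_eq_zero_iff _).2 hd
    rw [hcast] at h1
    by_contra h0
    have h2 : (Matrix.of ![A i, A j, A l]).det ≠ 0 := by
      intro h3
      apply h0
      rw [h3]
      simp
    exact prd_cast (k := IsLocalRing.ResidueField R) f hp (i := Sum.inr (Sum.inr (i, j, l))) h2 h1

lemma lin_smul {K : Type} [Field K] (c : K) (a : Fin 3 → K) : lin (c • a) = C c * lin a := by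
  simp [lin, Finset.mul_sum, mul_assoc]

lemma evl_smul {K : Type} [Field K] (c : K) (a : Fin 3 → K) (v : Fin 3 → MvPolynomial (Fin 3) K) :
    evl (c • a) v = C c * evl a v := by
  simp [evl, Finset.mul_sum, mul_assoc]

lemma LD_smul {K : Type} [Field K] {n : ℕ} {A A' : Fin n → Fin 3 → K} {c : Fin n → K}
    (hc : ∀ i, c i ≠ 0) (h : ∀ i, A' i = c i • A i) : LD A = LD A' := by
  ext v
  refine forall_congr' fun i => ?_
  have hu : IsUnit (C (c i) : MvPolynomial (Fin 3) K) := (Ne.isUnit (hc i)).map C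
  rw [h i, lin_smul, evl_smul, hu.mul_left_dvd, hu.dvd_mul_left]

lemma span_smul2 {K : Type} [Field K] {a b a' b' : Fin 3 → K} {s t : K} (hs : s ≠ 0) (ht : t ≠ 0)
    (ha : a' = s • a) (hb : b' = t • b) :
    Submodule.span K {a', b'} = Submodule.span K {a, b} := by
  apply le_antisymm
  · rw [Submodule.span_le]
    rintro z (rfl | rfl)
    · rw [ha]
      exact Submodule.smul_mem _ _ (Submodule.subset_span (by simp))
    · rw [hb]
      exact Submodule.smul_mem _ _ (Submodule.subset_span (by simp))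
  · rw [Submodule.span_le]
    rintro z (rfl | rfl)
    · have : z = s⁻¹ • a' := by rw [ha, smul_smul, inv_mul_cancel₀ hs, one_smul]
      rw [this]
      exact Submodule.smul_mem _ _ (Submodule.subset_span (by simp))
    · have : z = t⁻¹ • b' := by rw [hb, smul_smul, inv_mul_cancel₀ ht, one_smul]
      rw [this]
      exact Submodule.smul_mem _ _ (Submodule.subset_span (by simp))

theorem t_SCI : S_SCI := by
  intro K _ n A A' c hc h
  refine ⟨fun hA => ⟨fun i => ?_, fun i j hij t ht => ?_⟩, fun e => ?_, fun i j k => ?_⟩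
  · rw [h i]
    exact smul_ne_zero (hc i) (hA.1 i)
  · refine hA.2 i j hij ((c i)⁻¹ * t * c j) ?_
    rw [h i, h j] at ht
    rw [mul_assoc, mul_smul, mul_smul, ← ht, smul_smul, inv_mul_cancel₀ (hc i), one_smul]
  · unfold HasExp
    rw [LD_smul hc h]
  · rw [span_smul2 (hc i) (hc j) (h i) (h j), h k]
    exact Submodule.smul_mem_iff _ (hc k)

end Pool.Agent.H69.TD
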